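import Pool.Agent.Helper94.SEL.St

/-! The two inputs of the row `ZOOMX` of `Helper94/SEL/St`: existence of the rows, unit directions of flag zooms. -/

set_option autoImplicit false

namespace Pool.Agent.Helper63.ZMX

open Finset Filter Topology Matrix Pool.Agent.Helper69.RK Pool.Agent.Helper31.EC Pool.Agent.Helper31.EC.Sp
open Pool.Agent.Helper40.EL Pool.Agent.Helper89.LX Pool.Agent.Helper84.MT
open Pool.Agent.Helper36.AM
open Pool.Agent.Helper7.RD (RW)
open Pool.Agent.Helper29.MX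
open Pool.Agent.Helper94.SEL

noncomputable section

/-- [ROWSZ] (helper82, from helper4's `exists_rw` and helper25's degrees and sizes): optimal flag rows of bounded degree
over a literal K-label of the window `c > 0`, unit `e`, degree `gb r e0 La` of the zoom -/
def ROWSZ (M : ℕ) (gb : ℕ → ℕ → ℝ → ℕ) : Prop := ∀ (A : MCl (M + 1)) (C : ℕ → MCl (M + 1)) (v : ℕ), Ctx M A C v →
  ∀ (m g r e0 : ℕ) (La : ℝ), ∃ D1 : ℕ, ∀ (b0 : ℝ) (S : Sp) (s : MSys S (M + 1) (lin g) (Fin r)) (R : Rsl S),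
    BK (C m) v g r e0 b0 S s R → ∀ (c e : ℝ), 0 < c → c < b0 → 0 < e → tot s R c + e ≤ La * c → TopG s R c e →
      ∃ (z : RW s (M + 1)) (W : Rsl S), z.Z.l = Lab.ofZ W ∧ z.Z.c = c ∧ z.Z.u = e ∧ z.κ = gb r e0 La ∧ z.D ≤ D1 ∧
        KLb s R c z.Z.l ∧ Flg z (lmd s R c) ∧ OptLam z R (lmd s R c) ∧ Pt z.sys (rover z.Z.l z.Z.u z.Z.hu R)

/-- [INVRW] (helper55): the unit directions of a flag zoom with optimal exponents over a literal K-label -/
def INVRW (M : ℕ) : Prop := ∀ (v : ℕ) (S : Sp) (g r : ℕ) (s : MSys S (M + 1) (lin g) (Fin r)) (R : Rsl S), Inv v s →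
  Pt s R → ∀ (z : RW s (M + 1)) (W : Rsl S), 0 < z.Z.c → z.Z.l = Lab.ofZ W → KLb s R z.Z.c z.Z.l →
    Flg z (lmd s R z.Z.c) → Pt z.sys (rover z.Z.l z.Z.u z.Z.hu R) → Inv v z.sys

end

end Pool.Agent.Helper63.ZMX
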