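import Pool.Agent.Helper63.ZMX.Zmx
import Pool.Agent.Helper82.RZS.Main
import Pool.Agent.Helper55.INV.Irw

/-! ROW `ZOOMX` without hypotheses. -/

set_option autoImplicit false

namespace Pool.Agent.Helper63.ZMX

theorem zoomx_all (M : ℕ) : Pool.Agent.Helper94.SEL.ZOOMX M (Pool.Agent.Helper82.RZS.gb M) :=
  zoomx (Pool.Agent.Helper82.RZS.rowsz M) (Pool.Agent.Helper55.INV.invrw M)

end Pool.Agent.Helper63.ZMX
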