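import Pool.Agent.Helper63.ZMX.Num
import Pool.Agent.Helper63.ZMX.St
import Pool.Agent.Helper7.RD.Wm

/-! ROW `ZOOMX` of `Helper94/SEL/St`, from the existence of the rows and the unit directions of flag zooms. -/

set_option autoImplicit false

namespace Pool.Agent.Helper63.ZMX

open Finset Filter Topology Matrix Pool.Agent.Helper69.RK Pool.Agent.Helper31.EC Pool.Agent.Helper31.EC.Sp
open Pool.Agent.Helper40.EL Pool.Agent.Helper89.LX Pool.Agent.Helper84.MT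
open Pool.Agent.Helper36.AM
open Pool.Agent.Helper7.RD (RW rw_poly)
open Pool.Agent.Helper29.MX
open Pool.Agent.Helper94.SEL
open Pool.Agent.Helper52.MW (AllE_im AllE_self)

noncomputable section

/-- the rigid numbers of a flag zoom over a literal K-label give the numbers, the stability and the rigidity -/
theorem bk_zoom {M : ℕ} {C : ℕ → MCl (M + 1)} {v m g r e0 : ℕ} {b0 b1 : ℝ} {S : Sp}
    {s : MSys S (M + 1) (lin g) (Fin r)} {R : Rsl S} (hst : ∀ m, m < M + 1 → STu m) (hB : BK (C m) v g r e0 b0 S s R)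
    {z : RW s (M + 1)} {W : Rsl S} (hW : z.Z.l = Lab.ofZ W) (hK : KLb s R z.Z.c z.Z.l)
    (hf : Flg z (lmd s R z.Z.c)) (hlit : Pt z.sys (rover z.Z.l z.Z.u z.Z.hu R)) (hC : C m z.Z.sp z.κ r z.sys)
    (hI : Inv v z.sys) (hb1 : 0 < b1) (hb11 : b1 ≤ 1)
    (hb : ∀ b : ℝ, 0 ≤ b → b < b1 → z.Z.c + z.Z.u * b < b0 ∧ tot s R (z.Z.c + z.Z.u * b) < tot s R z.Z.c + z.Z.u) :
    BK (C m) v z.κ r e0 b1 z.Z.sp z.sys (rover z.Z.l z.Z.u z.Z.hu R) ∧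
      ∀ b : ℝ, 0 ≤ b → b < b1 → ∀ (j : ℕ) (hj : j ≤ M + 1), num z.sys (rover z.Z.l z.Z.u z.Z.hu R) hj b =
        (num s R hj (z.Z.c + z.Z.u * b) - num s R hj z.Z.c) / z.Z.u := by
  obtain ⟨hcl, hPt, -⟩ := hB.cl
  have hu := z.Z.hu
  have hc0 := z.Z.h0
  have hcb : z.Z.c < b0 := by
    have := (hb 0 le_rfl hb1).1
    rwa [mul_zero, add_zero] at this
  have hnum : ∀ b : ℝ, 0 ≤ b → b < b1 → AllE (fun _ t R' => ∀ (m : ℕ) (hm : m ≤ M + 1), num t R' hm b =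
      (num s R hm (z.Z.c + z.Z.u * b) - num s R hm z.Z.c) / z.Z.u) z.Z.sp z.sys
        (rover z.Z.l z.Z.u z.Z.hu R) := by
    intro b h0 h1
    refine num_zoom hst hPt hW hK hf hlit h0 (h1.trans_le hb11) (fun T p A hA m hm => ?_) (hb b h0 h1).2
    exact ⟨hB.rig T p A hA z.Z.c hc0 hcb m hm, hB.rig T p A hA (z.Z.c + z.Z.u * b)
      (add_nonneg hc0 (mul_nonneg hu.le h0)) (hb b h0 h1).1 m hm⟩
  have hself : ∀ b : ℝ, 0 ≤ b → b < b1 → ∀ (j : ℕ) (hj : j ≤ M + 1), num z.sys (rover z.Z.l z.Z.u z.Z.hu R) hj b =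
      (num s R hj (z.Z.c + z.Z.u * b) - num s R hj z.Z.c) / z.Z.u := fun b h0 h1 j hj =>
    AllE_self (hnum b h0 h1) j hj
  refine ⟨⟨⟨hC, hlit, hI⟩, fun i => hB.dim i, rw_poly z, fun T p A hA => ?_, fun T p A hA b h0 h1 j hj => ?_⟩, hself⟩
  · have h1 := hnum 0 le_rfl hb1 T p A hA (M + 1) le_rfl
    have h2 := (Pool.Agent.Helper84.SEL.numx M).last (Sp.im p A) _ r (z.sys.im p A hA) (rover z.Z.l z.Z.u z.Z.hu R) 0
    rw [h2, mul_zero, add_zero, sub_self, zero_div] at h1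
    have h3 : ((M + 1 : ℕ) : ℝ) - volKO (z.sys.im p A hA) (rover z.Z.l z.Z.u z.Z.hu R) 0 = 0 := h1
    show ((M + 1 : ℕ) : ℝ) - 0 ≤ volKO (z.sys.im p A hA) (rover z.Z.l z.Z.u z.Z.hu R) 0
    linarith
  · exact (hnum b h0 h1 T p A hA j hj).trans (hself b h0 h1 j hj).symm

/-- **ROW `ZOOMX`** -/
theorem zoomx {M : ℕ} {gb : ℕ → ℕ → ℝ → ℕ} (hR : ROWSZ M gb) (hI : INVRW M) : ZOOMX M gb := by
  intro A C v ctx m g r e0 La
  obtain ⟨D0, h3⟩ := hR A C v ctx m g r e0 La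
  obtain ⟨D1, h4⟩ := ctx.ok.zoom m g r D0
  refine ⟨D1, fun b0 S s R hB c e b1 hc he hb1 hb11 hLa hG hb => ?_⟩
  have hcb : c < b0 := by
    have := (hb 0 le_rfl hb1).1
    rwa [mul_zero, add_zero] at this
  obtain ⟨z0, W0, hW0, hc0, hu0, hκ0, hD0, hK0, hf0, hO0, hp0⟩ := h3 b0 S s R hB c e hc hcb he hLa hG
  obtain ⟨hcl, hPt, hinv⟩ := hB.cl
  have hK0' : KLb s R z0.Z.c z0.Z.l := by
    rw [hc0]
    exact hK0
  obtain ⟨z, W, hW, -, -, hzc, hzu, hzκ, hK, hf, hC, hpt, hD⟩ := h4 S s hcl R hPt z0 (lmd s R c) W0 hD0 hW0 hK0' hf0 hO0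
  have ec : z.Z.c = c := hzc.trans hc0
  have eu : z.Z.u = e := hzu.trans hu0
  rw [hc0, ← ec] at hK
  rw [← ec] at hf hc
  have hb' : ∀ b : ℝ, 0 ≤ b → b < b1 →
      z.Z.c + z.Z.u * b < b0 ∧ tot s R (z.Z.c + z.Z.u * b) < tot s R z.Z.c + z.Z.u := by
    rw [ec, eu]
    exact hb
  obtain ⟨h5, h6⟩ := bk_zoom ctx.st hB hW hK hf (hpt hp0) hC
    (hI v S g r s R hinv hPt z W hc hW hK hf (hpt hp0)) hb1 hb11 hb'
  refine ⟨z, W, hW, ec, eu, hzκ.trans hκ0, by first | exact hD | exact hD.1, ?_, ?_, h5, ?_⟩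
  · rw [← ec]
    exact hK
  · rw [← ec]
    exact hf
  · intro b h0 h1 j hj
    rw [h6 b h0 h1 j hj, ec, eu]

end

end Pool.Agent.Helper63.ZMX
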