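import Pool.Agent.Helper7.RD.Pf
import Pool.Agent.Helper49.KL.Inv
import Pool.Agent.Helper37.OKD.Ivj

/-! EQUALITY OF THE NUMBERS OF A ZOOM in optimal flag rows (one law): the exponents of the prefixes of the zoom at the
window `b` are the growth of the exponents of the prefixes of the system, if the degree of an optimal form of the prefix
of the zoom is bounded and its gradient has an exponent less than one. -/

set_option autoImplicit false

namespace Pool.Agent.Helper63.ZMX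

open Finset Filter Topology Matrix Pool.Agent.Helper69.RK Pool.Agent.Helper31.EC Pool.Agent.Helper31.EC.Sp
open Pool.Agent.Helper40.EL Pool.Agent.Helper89.LX Pool.Agent.Helper3.LF Pool.Agent.Helper84.MT
open Pool.Agent.Helper7.GZ Pool.Agent.Helper7.RD
open Pool.Agent.Helper29.MX
open Pool.Agent.Helper87.NSL (cndR KnS)
open Pool.Agent.Helper89.RAD (cnA DMA)
open Pool.Agent.Helper95.LF (PdM det_mono dv_add dv_smul dv_conj self_pos)
open Pool.Agent.Helper49.KL (one_gram_pd LitP Rz fR volCO_eq_win)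

noncomputable section

/-! ### determinants -/

theorem sq_sum_le {m : ℕ} (a y : Fin m → ℝ) {b : ℝ} (h : ∀ j, |a j| ≤ b) :
    (∑ j, a j * y j) ^ 2 ≤ m * b ^ 2 * ∑ j, y j ^ 2 := by
  have h1 := Finset.sum_mul_sq_le_sq_mul_sq Finset.univ a y
  refine h1.trans (mul_le_mul_of_nonneg_right ?_ (Finset.sum_nonneg fun i _ => sq_nonneg _))
  calc ∑ j, a j ^ 2 ≤ ∑ _j : Fin m, b ^ 2 := Finset.sum_le_sum fun j _ => by
        rw [← sq_abs]
        exact pow_le_pow_left₀ (abs_nonneg _) (h j) 2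
    _ = m * b ^ 2 := by rw [Finset.sum_const, Finset.card_univ, Fintype.card_fin, nsmul_eq_mul]

theorem det_gram_le {m : ℕ} (P : Matrix (Fin m) (Fin m) ℝ) (hP : P.det ≠ 0) {b : ℝ}
    (h : ∀ i j, |P⁻¹ i j| ≤ b) :
    (1 + P.transpose * P).det ≤ (1 + m * (m * b ^ 2)) ^ m * P.det ^ 2 := by
  have hK : (0 : ℝ) < 1 + m * (m * b ^ 2) := by positivity
  have e1 : ∀ x : Fin m → ℝ, x ⬝ᵥ ((P.transpose * P) *ᵥ x) = (P *ᵥ x) ⬝ᵥ (P *ᵥ x) := by
    intro x
    have h1 : P.transpose * P = P.transpose * 1 * P := by rw [Matrix.mul_one]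
    rw [h1, dv_conj, Matrix.one_mulVec]
  have h1 : (1 + P.transpose * P).det ≤ ((1 + m * (m * b ^ 2)) • (P.transpose * P)).det := by
    refine det_mono (one_gram_pd P) ?_ fun x => ?_
    · refine Matrix.IsSymm.smul ?_ _
      unfold Matrix.IsSymm
      rw [Matrix.transpose_mul, Matrix.transpose_transpose]
    · rw [dv_add, dv_smul, e1, Matrix.one_mulVec]
      have hu : IsUnit P.det := isUnit_iff_ne_zero.mpr hP
      have e2 : x = P⁻¹ *ᵥ (P *ᵥ x) := by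
        rw [Matrix.mulVec_mulVec, Matrix.nonsing_inv_mul _ hu, Matrix.one_mulVec]
      have h3 : ∀ y : Fin m → ℝ, y ⬝ᵥ y = ∑ i, y i ^ 2 := fun y =>
        Finset.sum_congr rfl fun i _ => (pow_two _).symm
      have h4 : x ⬝ᵥ x ≤ m * (m * b ^ 2) * ((P *ᵥ x) ⬝ᵥ (P *ᵥ x)) := by
        have h5 : ∀ i, x i ^ 2 ≤ m * b ^ 2 * ∑ j, (P *ᵥ x) j ^ 2 := by
          intro i
          have e3 : x i = ∑ j, P⁻¹ i j * (P *ᵥ x) j := congrFun e2 i
          rw [e3]
          exact sq_sum_le _ _ (h i)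
        rw [h3, h3]
        calc ∑ i, x i ^ 2 ≤ ∑ _i : Fin m, m * b ^ 2 * ∑ j, (P *ᵥ x) j ^ 2 := Finset.sum_le_sum fun i _ => h5 i
          _ = m * (m * b ^ 2) * ∑ i, (P *ᵥ x) i ^ 2 := by
              rw [Finset.sum_const, Finset.card_univ, Fintype.card_fin, nsmul_eq_mul]
              ring
      nlinarith
  refine h1.trans (le_of_eq ?_)
  rw [Matrix.det_smul, Fintype.card_fin, Matrix.det_mul, Matrix.det_transpose]
  ring

theorem kc_vars {M m : ℕ} {σ : Fin m → Fin M} (hσ : Function.Injective σ) {p : MvPolynomial (Fin M) ℝ}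
    (hv : ∀ i ∈ p.vars, i ∈ Set.range σ) {i : Fin m} (hi : i ∈ (kc hσ p).vars) : σ i ∈ p.vars := by
  rw [MvPolynomial.mem_vars_iff_mem_support] at hi ⊢
  obtain ⟨a, ha, hai⟩ := hi
  refine ⟨a.mapDomain σ, ?_, ?_⟩
  · rw [MvPolynomial.mem_support_iff] at ha ⊢
    rwa [kc_coeff hσ hv] at ha
  · rw [Finsupp.mem_support_iff, Finsupp.mapDomain_apply hσ]
    exact Finsupp.mem_support_iff.1 hai

/-! ### one law -/

variable {S : Sp} {M m : ℕ} {E E' : ℕ → ℕ} {ι : Type}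

/-- subexponential factors from small exponents -/
theorem sub_det (S : Sp) {K : ℕ → ℝ} (hK : S.Sub K) (m : ℕ) : S.Sub fun k => (1 + m * (m * K k ^ 2)) ^ m := by
  refine Pool.Agent.Helper89.LX.Sub_pow' ?_ m
  exact (S.Sub_const zero_le_one).add ((S.Sub_const (Nat.cast_nonneg m)).mul
    ((S.Sub_const (Nat.cast_nonneg m)).mul (Pool.Agent.Helper89.LX.Sub_pow' hK 2)))

variable {s : MSys S M E ι} {R : Rsl S} {Z : ZU S} {z : PZ Z s.Q M} {lam : Fin M → ℝ}

/-- the Jacobian determinants of the rows of the prefixes -/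
theorem det_prefix (hT : z.Tri) (hm : m ≤ M) (hex : ∀ e : ℝ, 0 < e → Typ (S := Z.l.sp) (fun k (ω : (Z.l k).T.Ω) =>
      ∀ j, 2 ^ ((lam j - e) * (S.F k).n) ≤ |MvPolynomial.eval (s.Q.v k ((Z.l k).p.π ω))
        (MvPolynomial.pderiv j (z.R.p k ω j))| ∧
      |MvPolynomial.eval (s.Q.v k ((Z.l k).p.π ω)) (MvPolynomial.pderiv j (z.R.p k ω j))| ≤
        2 ^ ((lam j + e) * (S.F k).n))) :
    ∃ K : ℕ → ℝ, S.Sub K ∧ (Typ (S := Z.l.sp) fun k (ω : (Z.l k).T.Ω) =>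
      (jac ((z.pre hT hm).R.p k ω) ((pfx s.Q hm).v k ((Z.l k).p.π ω))).det ^ 2 ≤
        K k * 2 ^ (2 * (∑ i : Fin m, lam (Fin.castLE hm i)) * (S.F k).n)) ∧
      Typ (S := Z.l.sp) fun k (ω : (Z.l k).T.Ω) => 2 ^ (2 * (∑ i : Fin m, lam (Fin.castLE hm i)) * (S.F k).n) ≤
        K k * (jac ((z.pre hT hm).R.p k ω) ((pfx s.Q hm).v k ((Z.l k).p.π ω))).det ^ 2 := by
  obtain ⟨e, he, he0, hTy⟩ := typ_diag (S := Z.l.sp) (fun e k (ω : (Z.l k).T.Ω) =>
      ∀ j, 2 ^ ((lam j - e) * (S.F k).n) ≤ |MvPolynomial.eval (s.Q.v k ((Z.l k).p.π ω))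
        (MvPolynomial.pderiv j (z.R.p k ω j))| ∧
      |MvPolynomial.eval (s.Q.v k ((Z.l k).p.π ω)) (MvPolynomial.pderiv j (z.R.p k ω j))| ≤
        2 ^ ((lam j + e) * (S.F k).n)) hex
  have hs : S.Sub fun k => (2 : ℝ) ^ ((2 * m * e k) * (S.F k).n) := by
    refine Sub_pow_two ?_ (Eventually.of_forall fun k => by have := he0 k; positivity)
    have h1 := he.const_mul (2 * (m : ℝ))
    rw [mul_zero] at h1
    exact h1
  refine ⟨fun k => (2 : ℝ) ^ ((2 * m * e k) * (S.F k).n), hs, ?_, ?_⟩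
  · refine Typ.mono (S := Z.l.sp) hTy (Eventually.of_forall fun k (ω : (Z.l k).T.Ω) _ h => ?_)
    rw [z.pre_det hT hm k ω, ← sq_abs, Finset.abs_prod]
    have h3 : (2 : ℝ) ^ ((2 * m * e k) * (S.F k).n) * 2 ^ (2 * (∑ i : Fin m, lam (Fin.castLE hm i)) * (S.F k).n) =
        (∏ i : Fin m, (2 : ℝ) ^ ((lam (Fin.castLE hm i) + e k) * (S.F k).n)) ^ 2 := by
      rw [← Real.rpow_sum_of_pos (by norm_num), ← Real.rpow_natCast, ← Real.rpow_mul (by norm_num), ← Finset.sum_mul,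
        Finset.sum_add_distrib, Finset.sum_const, Finset.card_univ, Fintype.card_fin, nsmul_eq_mul,
        ← Real.rpow_add (by norm_num)]
      congr 1
      push_cast
      ring
    rw [h3]
    exact pow_le_pow_left₀ (Finset.prod_nonneg fun i _ => abs_nonneg _)
      (Finset.prod_le_prod (fun i _ => abs_nonneg _) fun i _ => (h _).2) 2
  · refine Typ.mono (S := Z.l.sp) hTy (Eventually.of_forall fun k ω _ h => ?_)
    have h4 := z.pre_low hT hm (fun j => lam j - e k) k ω fun j => (h j).1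
    rw [one_mul] at h4
    have h5 : (2 : ℝ) ^ (2 * (∑ i : Fin m, lam (Fin.castLE hm i)) * (S.F k).n) =
        2 ^ ((2 * m * e k) * (S.F k).n) * 2 ^ (2 * (∑ i : Fin m, (lam (Fin.castLE hm i) - e k)) * (S.F k).n) := by
      rw [← Real.rpow_add (by norm_num), Finset.sum_sub_distrib, Finset.sum_const, Finset.card_univ, Fintype.card_fin,
        nsmul_eq_mul]
      congr 1
      ring
    rw [h5]
    exact mul_le_mul_of_nonneg_left h4 (by positivity)

/-- the Gram determinant of optimal rows -/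
theorem gram_prefix [Finite ι] (hR : Pt s R) (hT : z.Tri) (hm : m ≤ M) (hc1 : Z.c ≤ 1) (hK : KLb s R Z.c Z.l)
    (hex : ∀ e : ℝ, 0 < e → Typ (S := Z.l.sp) (fun k (ω : (Z.l k).T.Ω) =>
      ∀ j, 2 ^ ((lam j - e) * (S.F k).n) ≤ |MvPolynomial.eval (s.Q.v k ((Z.l k).p.π ω))
        (MvPolynomial.pderiv j (z.R.p k ω j))|))
    (hs : ∑ i : Fin m, lam (Fin.castLE hm i) = m - volP s R Z.c hm) :
    ∃ K : ℕ → ℝ, S.Sub K ∧ Typ (S := Z.l.sp) fun k (ω : (Z.l k).T.Ω) =>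
      (1 + (jac ((z.pre hT hm).R.p k ω) ((pfx s.Q hm).v k ((Z.l k).p.π ω))).transpose *
        jac ((z.pre hT hm).R.p k ω) ((pfx s.Q hm).v k ((Z.l k).p.π ω))).det ≤
          K k * (jac ((z.pre hT hm).R.p k ω) ((pfx s.Q hm).v k ((Z.l k).p.π ω))).det ^ 2 := by
  have hRp : KnS R (pfx s.Q hm).v := by
    filter_upwards [hR] with k hk ω ω' a b c d
    have h1 := hk ω ω' a b c d
    funext i
    exact congrFun h1 (Fin.castLE hm i)
  have hcell : ∀ i, PLe (fun k => fc (Setoid.ker ((pfx s.Q hm).cellv Z.c k))) (cndR s R Z.c i) := by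
    intro i
    refine PLe.trans (S := S) ?_ (Pool.Agent.Helper37.OKD.cells_cndR s hR Z.h0 hc1 i)
    refine (Nul_zero S).of_le (Eventually.of_forall fun _ => h_nonneg _ _) (Eventually.of_forall fun k => ?_)
    refine (h_zero (fc_mono ?_)).le
    intro ω ω' r
    have r' : s.Q.cellv Z.c k ω = s.Q.cellv Z.c k ω' := r
    show (pfx s.Q hm).cellv Z.c k ω = (pfx s.Q hm).cellv Z.c k ω'
    funext i
    exact congrFun r' (Fin.castLE hm i)
  have hex' : ∀ e : ℝ, 0 < e → Typ (S := Z.l.sp) (fun k (ω : (Z.l k).T.Ω) => ∀ j : Fin m,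
      2 ^ ((lam (Fin.castLE hm j) - e) * (S.F k).n) ≤ |MvPolynomial.eval ((pfx s.Q hm).v k ((Z.l k).p.π ω))
        (MvPolynomial.pderiv j ((z.pre hT hm).R.p k ω j))|) := by
    intro e he
    refine Typ.mono (S := Z.l.sp) (hex e he) (Eventually.of_forall fun k ω _ h j => ?_)
    have h1 := z.sub_jac (Fin.castLE_injective hm) (Fin.castLE hm) (hT.pv hm) k ω j j
    have h2 : MvPolynomial.eval ((pfx s.Q hm).v k ((Z.l k).p.π ω)) (MvPolynomial.pderiv j ((z.pre hT hm).R.p k ω j)) =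
        MvPolynomial.eval (s.Q.v k ((Z.l k).p.π ω))
          (MvPolynomial.pderiv (Fin.castLE hm j) (z.R.p k ω (Fin.castLE hm j))) := h1
    rw [h2]
    exact h _
  have htri : ∀ k ω (j : Fin m), ∀ i ∈ ((z.pre hT hm).R.p k ω j).vars, i ≤ j := by
    intro k ω j i hi
    by_contra hc
    have h1 : (Fin.castLE hm i) ∈ (z.R.p k ω (Fin.castLE hm j)).vars :=
      kc_vars (Fin.castLE_injective hm) (hT.pv hm k ω j) hi
    have h3 : (i : ℕ) ≤ j := hT k ω _ _ h1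
    exact hc h3
  have htm : ∀ L : ℕ → ℝ, S.Sub L → ∃ K : ℕ → ℝ, S.Sub K ∧ Typ (S := Z.l.sp) (fun k (ω : (Z.l k).T.Ω) =>
      ∀ y : Fin m → ℝ, (∀ i, |y i - (pfx s.Q hm).v k ((Z.l k).p.π ω) i| ≤ L k * S.dl 1 k) → ∀ j,
        |MvPolynomial.eval y ((z.pre hT hm).R.p k ω j) -
          MvPolynomial.eval ((pfx s.Q hm).v k ((Z.l k).p.π ω)) ((z.pre hT hm).R.p k ω j)| ≤ K k) := by
    intro L hL
    obtain ⟨K, hK, h2⟩ := (z.pre hT hm).R.lp L hL
    refine ⟨K, hK, Typ.mono (S := Z.l.sp) h2 ?_⟩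
    filter_upwards [hK.1] with k hk0 ω _ hh y hy j
    refine (hh y hy j).trans (mul_le_of_le_one_right hk0 ?_)
    rw [← S.dl_zero k]
    exact S.dl_anti Z.hu.le k
  have hinv := Pool.Agent.Helper37.OKD.inv_typ (A := cndR s R Z.c) (pfx s.Q hm) hRp Z.h0 hc1 hcell hK.1 hK.2
    (z.pre hT hm).R.p (z.pre hT hm).R.deg (z.pre hT hm).R.fn (z.pre hT hm).R.cf (z.pre hT hm).R.bd htm htri
    (fun j => lam (Fin.castLE hm j)) hex' (by
      rw [hs]
      exact le_of_eq rfl)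
  obtain ⟨e, he, he0, hTy⟩ := typ_diag (S := Z.l.sp) (fun e k (ω : (Z.l k).T.Ω) => ∀ r i,
      |(jac ((z.pre hT hm).R.p k ω) ((pfx s.Q hm).v k ((Z.l k).p.π ω)))⁻¹ r i| ≤ 2 ^ (e * (S.F k).n)) (fun e he =>
    Typ.mono (S := Z.l.sp) (hinv e he) (Eventually.of_forall fun k ω _ h r i => (h r i).trans (by
      apply Real.rpow_le_rpow_of_exponent_le (by norm_num)
      have := mul_nonneg Z.h0 (S.F k).pos.le
      linarith [sub_mul e Z.c (S.F k).n])))
  have hsub : S.Sub fun k => (2 : ℝ) ^ (e k * (S.F k).n) :=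
    Sub_pow_two he (Eventually.of_forall fun k => (he0 k).le)
  refine ⟨fun k => (1 + m * (m * ((2 : ℝ) ^ (e k * (S.F k).n)) ^ 2)) ^ m, sub_det S hsub m, ?_⟩
  refine Typ.mono (S := Z.l.sp) (Typ.and (S := Z.l.sp) hTy (hex 1 one_pos)) (Eventually.of_forall fun k ω _ h => ?_)
  refine det_gram_le _ ?_ h.1
  have h5 := z.pre_low hT hm (fun j => lam j - 1) k ω h.2
  intro h6
  have h7 : (0 : ℝ) < 2 ^ (2 * (∑ i : Fin m, (lam (Fin.castLE hm i) - 1)) * (S.F k).n) := by positivity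
  have h8 : (1 : ℝ) * (jac ((z.pre hT hm).R.p k ω) ((pfx s.Q hm).v k ((Z.l k).p.π ω))).det ^ 2 = 0 := by
    rw [h6]
    norm_num
  rw [h8] at h5
  exact absurd h5 (not_le.2 h7)

/-- **EQUALITY OF THE NUMBERS** -/
theorem volP_eq [Finite ι] (hR : Pt s R) (hT : z.Tri) (hlit : KnS (roz Z R) z.X.v) (hK : KLb s R Z.c Z.l)
    {t : MSys Z.sp M E' ι} (hX : t.Q = z.X) {b : ℝ} (hw : WZ Z s t b)
    (hex : ∀ e : ℝ, 0 < e → Typ (S := Z.l.sp) (fun k (ω : (Z.l k).T.Ω) =>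
      ∀ j, 2 ^ ((lam j - e) * (S.F k).n) ≤ |MvPolynomial.eval (s.Q.v k ((Z.l k).p.π ω))
        (MvPolynomial.pderiv j (z.R.p k ω j))| ∧
      |MvPolynomial.eval (s.Q.v k ((Z.l k).p.π ω)) (MvPolynomial.pderiv j (z.R.p k ω j))| ≤
        2 ^ ((lam j + e) * (S.F k).n)))
    (hm : m ≤ M) (hs : ∑ i : Fin m, lam (Fin.castLE hm i) = m - volP s R Z.c hm)
    {D₁ : ℕ} (hD₁ : 1 ≤ D₁) {y : ∀ k, FD (Z.sp.F k) (Mon m D₁)}
    (hy : (gaq (pfx t.Q hm) D₁).AdfK (KZ (roz Z R)) (cndR t (roz Z R) b) y)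
    (hyO : vol (pfx t.Q hm) D₁ y ≤ volP t (roz Z R) b hm) {u : ℝ} (hu : 0 < u) (hu1 : u ≤ 1)
    (hG : GrB (pfx t.Q hm) y u) :
    volP s R (Z.c + Z.u * b) hm = volP s R Z.c hm - Z.u * (m - volP t (roz Z R) b hm) := by
  have hc1 : Z.c ≤ 1 := by linarith [Z.h1, Z.hu]
  obtain ⟨K1, hK1, h1⟩ := gram_prefix hR hT hm hc1 hK (fun e he => Typ.mono (S := Z.l.sp) (hex e he)
    (Eventually.of_forall fun k ω _ h j => (h j).1)) hs
  obtain ⟨K2, hK2, h2, h3⟩ := det_prefix hT hm hex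
  have hKi := KLb_iff.mp hK
  have hdm : DMA s (pR R) (Z.c + Z.u * b) Z.l := hKi.1.mono hw.c_le
  have hsub : S.Sub fun k => K1 k + K2 k := hK1.add hK2
  have hlx : LitP (Rz Z R) (z.pre hT hm).X := by
    filter_upwards [hlit] with k hk ω ω' a b c d
    have e1 := hk ω ω' a b c d
    funext i
    exact congrFun e1 (Fin.castLE hm i)
  have e1 : (z.pre hT hm).X = pfx t.Q hm := by
    rw [hX]
    rfl
  have key := volCO_eq_win (z.pre hT hm) (A := cnA s (pR R) (Z.c + Z.u * b)) (B := cnA t (pR (roz Z R)) b) (R := R)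
    hlx hdm hKi.2 (fun i => ⟨i, hw.cnA_up (A := pR R) (PLe.refl _) i⟩)
    (fun i => ⟨i, hw.up_cnA (A := pR R) (PLe.refl _) i⟩) hD₁ (y := y) (by
      rw [e1, ← cndR_cnA]
      exact hy) (by
      rw [e1, ← cndR_cnA]
      exact hyO) hu hu1 (by
      rw [e1]
      exact hG) (fun _ _ => ∑ i : Fin m, lam (Fin.castLE hm i)) |∑ i : Fin m, lam (Fin.castLE hm i)|
      (Eventually.of_forall fun k ω _ => le_rfl) hsub
      (Typ.mono (S := Z.l.sp) h1 (by
        filter_upwards [hK2.1] with k hk ω _ h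
        exact h.trans (mul_le_mul_of_nonneg_right (by linarith) (sq_nonneg _))))
      (Typ.mono (S := Z.l.sp) h2 (by
        filter_upwards [hK1.1] with k hk ω _ h
        exact h.trans (mul_le_mul_of_nonneg_right (by linarith) (by positivity))))
      (Typ.mono (S := Z.l.sp) h3 (by
        filter_upwards [hK1.1] with k hk ω _ h
        exact h.trans (mul_le_mul_of_nonneg_right (by linarith) (sq_nonneg _))))
  have e2 : ul (fun k => ∑ ω, (Z.l k).T.μ ω * ∑ i : Fin m, lam (Fin.castLE hm i)) =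
      ∑ i : Fin m, lam (Fin.castLE hm i) := by
    have h5 : (fun k => ∑ ω, (Z.l k).T.μ ω * ∑ i : Fin m, lam (Fin.castLE hm i)) =
        fun _ => ∑ i : Fin m, lam (Fin.castLE hm i) := by
      funext k
      rw [← Finset.sum_mul, Pool.Agent.Helper3.PR.sum_mu, one_mul]
    rw [h5, ul_const]
  rw [e2, hs, e1] at key
  rw [volP_cnA, volP_cnA t]
  have e3 : volCO (LC.kz (fR R)) (cnA s (pR R) (Z.c + Z.u * b)) (pfx s.Q hm) =
      volCO (LC.kz (pR R)) (cnA s (pR R) (Z.c + Z.u * b)) (pfx s.Q hm) := rfl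
  rw [← e3, key]
  have e4 : volCO (LC.kz (upz Z (fR R))) (cnA t (pR (roz Z R)) b) (pfx t.Q hm) =
      volCO (LC.kz (pR (roz Z R))) (cnA t (pR (roz Z R)) b) (pfx t.Q hm) := rfl
  rw [e4]
  ring

end

end Pool.Agent.Helper63.ZMX
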