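import Pool.Agent.Helper63.ZMX.Num
import Pool.Agent.Helper7.RD.Wm

/-! FLAG ZOOMS over literal K-labels at a rigid window: the zoom is a rigid stable pair (the system itself need not be
stable at the window `0`). -/

set_option autoImplicit false

namespace Pool.Agent.Helper63.ZMX

open Finset Filter Topology Matrix Pool.Agent.Helper69.RK Pool.Agent.Helper31.EC Pool.Agent.Helper31.EC.Sp
open Pool.Agent.Helper40.EL Pool.Agent.Helper89.LX Pool.Agent.Helper84.MT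
open Pool.Agent.Helper36.AM
open Pool.Agent.Helper7.RD (RW rw_poly)
open Pool.Agent.Helper29.MX
open Pool.Agent.Helper94.SEL
open Pool.Agent.Helper52.MW (AllE_im AllE_self)

noncomputable section

/-- THE ZOOM OF A SYSTEM WHICH IS RIGID AT THE WINDOWS `c ≤ c' < c + u b1`: rigid stable pair, and the numbers -/
theorem bk_zoom_of {M : ℕ} {C : MCl (M + 1)} {v g r e0 : ℕ} {b1 : ℝ} {S : Sp}
    {s : MSys S (M + 1) (lin g) (Fin r)} {R : Rsl S} (hst : ∀ m, m < M + 1 → STu m) (hPt : Pt s R)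
    (hdim : ∀ i, (s.lf i).e ≤ e0) {z : RW s (M + 1)} {W : Rsl S} (hW : z.Z.l = Lab.ofZ W)
    (hK : KLb s R z.Z.c z.Z.l) (hf : Flg z (lmd s R z.Z.c)) (hlit : Pt z.sys (rover z.Z.l z.Z.u z.Z.hu R))
    (hC : C z.Z.sp z.κ r z.sys) (hI : Inv v z.sys) (hb1 : 0 < b1) (hb11 : b1 ≤ 1)
    (hrig : ∀ (T : Sp) (q : Pj T S) (A : ∀ k, (T.F k).Ω → Prop) (hA : 0 < ul (T.pr A)) (c : ℝ), z.Z.c ≤ c →
      c < z.Z.c + z.Z.u * b1 → ∀ (j : ℕ) (hj : j ≤ M + 1), num (s.im q A hA) R hj c = num s R hj c)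
    (hb : ∀ b : ℝ, 0 ≤ b → b < b1 → tot s R (z.Z.c + z.Z.u * b) < tot s R z.Z.c + z.Z.u) :
    BK C v z.κ r e0 b1 z.Z.sp z.sys (rover z.Z.l z.Z.u z.Z.hu R) ∧
      ∀ b : ℝ, 0 ≤ b → b < b1 → ∀ (j : ℕ) (hj : j ≤ M + 1), num z.sys (rover z.Z.l z.Z.u z.Z.hu R) hj b =
        (num s R hj (z.Z.c + z.Z.u * b) - num s R hj z.Z.c) / z.Z.u := by
  have hu := z.Z.hu
  have hnum : ∀ b : ℝ, 0 ≤ b → b < b1 → AllE (fun _ t R' => ∀ (m : ℕ) (hm : m ≤ M + 1), num t R' hm b =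
      (num s R hm (z.Z.c + z.Z.u * b) - num s R hm z.Z.c) / z.Z.u) z.Z.sp z.sys
        (rover z.Z.l z.Z.u z.Z.hu R) := by
    intro b h0 h1
    refine num_zoom hst hPt hW hK hf hlit h0 (h1.trans_le hb11) (fun T p A hA m hm => ?_) (hb b h0 h1)
    exact ⟨hrig T p A hA z.Z.c le_rfl (by have := mul_pos hu hb1; linarith) m hm,
      hrig T p A hA (z.Z.c + z.Z.u * b) (by have := mul_nonneg hu.le h0; linarith)
        (by have := mul_lt_mul_of_pos_left h1 hu; linarith) m hm⟩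
  have hself : ∀ b : ℝ, 0 ≤ b → b < b1 → ∀ (j : ℕ) (hj : j ≤ M + 1), num z.sys (rover z.Z.l z.Z.u z.Z.hu R) hj b =
      (num s R hj (z.Z.c + z.Z.u * b) - num s R hj z.Z.c) / z.Z.u := fun b h0 h1 j hj =>
    AllE_self (hnum b h0 h1) j hj
  refine ⟨⟨⟨hC, hlit, hI⟩, fun i => hdim i, rw_poly z, fun T p A hA => ?_, fun T p A hA b h0 h1 j hj => ?_⟩, hself⟩
  · have h1 := hnum 0 le_rfl hb1 T p A hA (M + 1) le_rfl
    have h2 := (Pool.Agent.Helper84.SEL.numx M).last (Sp.im p A) _ r (z.sys.im p A hA) (rover z.Z.l z.Z.u z.Z.hu R) 0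
    rw [h2, mul_zero, add_zero, sub_self, zero_div] at h1
    have h3 : ((M + 1 : ℕ) : ℝ) - volKO (z.sys.im p A hA) (rover z.Z.l z.Z.u z.Z.hu R) 0 = 0 := h1
    show ((M + 1 : ℕ) : ℝ) - 0 ≤ volKO (z.sys.im p A hA) (rover z.Z.l z.Z.u z.Z.hu R) 0
    linarith
  · exact (hnum b h0 h1 T p A hA j hj).trans (hself b h0 h1 j hj).symm

end

end Pool.Agent.Helper63.ZMX
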