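import Pool.Agent.Helper7.RD.Gw
import Pool.Agent.Helper29.MX.Bas
import Pool.Agent.Helper81.CPY.Zmc
import Pool.Agent.Helper52.MW.Ime
import Pool.Agent.Helper49.KL.Rig

/-! THE ZOOM ON EVENTS OF EXTENSIONS: an event of an extension of the space over a label is (definitionally) the space
over the label on an event of an extension of the space; zooms in the coordinates of rows, windows. -/

set_option autoImplicit false

namespace Pool.Agent.Helper63.ZMX

open Finset Filter Topology Matrix Pool.Agent.Helper69.RK Pool.Agent.Helper31.EC Pool.Agent.Helper31.EC.Sp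
open Pool.Agent.Helper40.EL Pool.Agent.Helper89.LX Pool.Agent.Helper3.LF Pool.Agent.Helper84.MT
open Pool.Agent.Helper7.GZ Pool.Agent.Helper7.RD Pool.Agent.Helper36.AM
open Pool.Agent.Helper29.MX
open Pool.Agent.Helper87.NSL (cndR KnS)
open Pool.Agent.Helper81.CPY (typ_im ple_im)

noncomputable section

variable {S T : Sp} {M M' : ℕ} {E E' : ℕ → ℕ} {ι : Type}

/-! ### finite spaces -/

section fin

variable {F : FSp} (l : FLab F) {K : FSp} (q : FPj K l.T) (A : K.Ω → Prop)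

/-- a label on an event of an extension of its space -/
def fimx : FLab (FSp.im (q.comp l.p) A) where
  T := FSp.im q A
  p :=
    { π := l.p.π
      law := (push_comp q.π l.p.π (K.rest A).μ).symm
      hZ := fun ω ω' h h' => l.p.hZ ω ω' (FSp.im_supp q A ω h) (FSp.im_supp q A ω' h') }
  hn := l.hn
  V := l.V

theorem fimx_leak (x : FL F) : K.pb A * (fimx l q A).leak (FSp.imap (q.comp l.p) A x) ≤ l.leak x + 1 := by
  have e1 : (fimx l q A).leak (FSp.imap (q.comp l.p) A x) = I (FSp.imap q A l.v)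
      (FSp.imap q A l.p.top) (FSp.imap q A (l.p.map x)) := by
    induction x using fc_ind
    rfl
  have e2 : l.leak x = I (q.map l.v) (q.map l.p.top) (q.map (l.p.map x)) := by
    rw [q.I_map]
    rfl
  rw [e1, e2, ← (FSp.imp q A).I_map, FSp.imp_imap, FSp.imp_imap, FSp.imp_imap]
  exact K.rmap_I_le A _ _ _

end fin

section lab

variable (l : Lab S) (e : ℝ) (he : 0 < e) (p : Pj T (l.ovr e he)) (A : ∀ k, (T.F k).Ω → Prop)

/-- an extension of the space over a label as an extension of the space of the label -/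
@[reducible] def unS : Sp where
  F := fun k =>
    { Ω := (T.F k).Ω
      ft := (T.F k).ft
      μ := (T.F k).μ
      nn := (T.F k).nn
      ms := (T.F k).ms
      Z := Setoid.comap (p.π k) (l k).T.Z
      n := (S.F k).n
      pos := (S.F k).pos }
  lim := S.lim

/-- the projection to the space of the label -/
def unP : Pj (unS l e he p) l.sp where
  π := p.π
  law := p.law
  hZ := fun _ _ _ _ _ => Iff.rfl
  hn := fun k => ((l k).hn).symm

/-- the projection to the space -/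
abbrev unQ : Pj (unS l e he p) S := (unP l e he p).comp l.pj

/-- the label on the event -/
def imx : Lab (Sp.im (unQ l e he p) A) := fun k => fimx (l k) ((unP l e he p).fp k) (A k)

/-- THE SPACE OVER THE LABEL ON THE EVENT -/
theorem imx_ovr : (imx l e he p A).ovr e he = Sp.im p A := rfl

theorem imx_sp : (imx l e he p A).sp = Sp.im (unP l e he p) A := rfl

variable {l e he p A}

theorem imx_supp {k : ℕ} {ω : (l k).T.Ω} (h : ((imx l e he p A) k).T.μ ω ≠ 0) : (l k).T.μ ω ≠ 0 :=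
  FSp.im_supp ((unP l e he p).fp k) (A k) ω h

/-- literal labels on events -/
theorem imx_ofZ {W : ∀ k, Setoid (S.F k).Ω} {e : ℝ} {he : 0 < e} (p : Pj T ((Lab.ofZ W).ovr e he))
    (A : ∀ k, (T.F k).Ω → Prop) : imx (Lab.ofZ W) e he p A = Lab.ofZ (S := Sp.im (unQ (Lab.ofZ W) e he p) A) W := rfl

theorem typ_imx (hA : 0 < ul (T.pr A)) {B : ∀ k, (l k).T.Ω → Prop} (hB : Typ (S := l.sp) B) :
    Typ (S := (imx l e he p A).sp) B := typ_im (S := l.sp) (unP l e he p) A hA hB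

end lab

/-! ### zooms -/

section zu

variable (Z : ZU S) (p : Pj T Z.sp) (A : ∀ k, (T.F k).Ω → Prop)

/-- the projection to the space -/
abbrev pjX : Pj (unS Z.l Z.u Z.hu p) S := unQ Z.l Z.u Z.hu p

/-- the data of the zoom on the event -/
def zuX : ZU (Sp.im (pjX Z p) A) := ⟨imx Z.l Z.u Z.hu p A, Z.c, Z.u, Z.h0, Z.hu, Z.h1⟩

theorem zuX_sp : (zuX Z p A).sp = Sp.im p A := rfl

variable {Z p A}

theorem prX (hA : 0 < ul (T.pr A)) : 0 < ul ((unS Z.l Z.u Z.hu p).pr A) := hA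

/-- parts of the zoom on the event -/
theorem upz_im (B : Part S) : upz (zuX Z p A) (B.im (pjX Z p) A) = Part.im (S := Z.sp) p A (upz Z B) := by
  funext k
  show (frb ((zuX Z p A).l k).T ((zuX Z p A).l k).V Z.u Z.hu).map (((zuX Z p A).l k).p.map
    (FSp.imap ((pjX Z p).fp k) (A k) (B k))) = FSp.imap (p.fp k) (A k) ((frb (Z.l k).T (Z.l k).V Z.u Z.hu).map
      ((Z.l k).p.map (B k)))
  induction B k using fc_ind
  rfl

/-- the leaks of the label on the event -/
theorem imx_leak (l : Lab S) (e : ℝ) (he : 0 < e) (p : Pj T (l.ovr e he)) (A : ∀ k, (T.F k).Ω → Prop) (B : Part S)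
    (k : ℕ) : T.pr A k * (imx l e he p A k).leak (B.im (unQ l e he p) A k) ≤ (l k).leak (B k) + 1 :=
  fimx_leak (l k) ((unP l e he p).fp k) (A k) (B k)

/-- labels with no leak up to `o(n)` on events -/
theorem imx_nul {l : Lab S} {e : ℝ} {he : 0 < e} {p : Pj T (l.ovr e he)} {A : ∀ k, (T.F k).Ω → Prop}
    (hA : 0 < ul (T.pr A)) {B : Part S} (h : Nul S fun k => (l k).leak (B k)) :
    Nul (Sp.im (unQ l e he p) A) fun k => (imx l e he p A k).leak (B.im (unQ l e he p) A k) :=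
  Nul.div_pr (S := unS l e he p) (E := A) hA h (fun _ => FLab.leak_nonneg _ _) (imx_leak l e he p A B)

variable {Z : ZU S} {p : Pj T Z.sp} {A : ∀ k, (T.F k).Ω → Prop}

theorem suppX {k : ℕ} {ω : (Z.l k).T.Ω} (h : ((zuX Z p A).l k).T.μ ω ≠ 0) : (Z.l k).T.μ ω ≠ 0 :=
  imx_supp (l := Z.l) (p := p) (A := A) h

theorem typX (hA : 0 < ul (T.pr A)) {B : ∀ k, (Z.l k).T.Ω → Prop} (hB : Typ (S := Z.l.sp) B) :
    Typ (S := (zuX Z p A).l.sp) B := typ_imx (l := Z.l) (p := p) (A := A) hA hB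

/-- THE ROWS ON THE EVENT -/
def rowsX {Q : S.VV M} {D : ℕ} {Λ : ℝ} (R : Rows Q Z.l M' D Λ Z.u) (hA : 0 < ul (T.pr A)) :
    Rows (Q.im (pjX Z p) A) (zuX Z p A).l M' D Λ (zuX Z p A).u where
  p := R.p
  deg := R.deg
  fn := by
    filter_upwards [R.fn] with k h ω ω' a b c d
    exact h ω ω' (suppX a) (suppX b) c d
  cf := by
    obtain ⟨K, hK, h⟩ := R.cf
    exact ⟨K, hK, h.mono fun k hk ω a => hk ω (suppX a)⟩
  bd := by
    obtain ⟨K, hK, h⟩ := R.bd
    exact ⟨K, hK, typX (B := fun k ω => ∀ j,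
      |MvPolynomial.eval (Q.v k ((Z.l k).p.π ω)) (R.p k ω j)| ≤ K k) hA h⟩
  lp := fun L hL => by
    obtain ⟨K, hK, h⟩ := R.lp L hL
    exact ⟨K, hK, typX (B := fun k ω => ∀ y : Fin M → ℝ, (∀ i, |y i - Q.v k ((Z.l k).p.π ω) i| ≤ L k * S.dl 1 k) →
      ∀ j, |MvPolynomial.eval y (R.p k ω j) - MvPolynomial.eval (Q.v k ((Z.l k).p.π ω)) (R.p k ω j)| ≤
        K k * S.dl Z.u k) hA h⟩

theorem isX_X {Q : S.VV M} {D : ℕ} {Λ : ℝ} {R : Rows Q Z.l M' D Λ Z.u} (hA : 0 < ul (T.pr A)) {X : Z.sp.VV M'}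
    (hX : Rows.IsX Z R X) : Rows.IsX (zuX Z p A) (rowsX R hA) (VV.im (S := Z.sp) p A X) := by
  obtain ⟨K, hK, h⟩ := hX
  exact ⟨K, hK, typ_im (S := Z.sp) p A hA h⟩

/-- the pair of points on the event -/
def pzX {Q : S.VV M} (z : PZ Z Q M') (hA : 0 < ul (T.pr A)) : PZ (zuX Z p A) (Q.im (pjX Z p) A) M' :=
  ⟨z.D, z.Λ, rowsX z.R hA, VV.im (S := Z.sp) p A z.X, isX_X hA z.hX⟩

/-- the windows on the event -/
theorem wzX {s : MSys S M E ι} {t : MSys Z.sp M' E' ι} {b : ℝ} (h : WZ Z s t b) (hA : 0 < ul (T.pr A)) :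
    WZ (zuX Z p A) (s.im (pjX Z p) A (prX hA)) (MSys.im (S := Z.sp) p A hA t) b where
  b0 := h.b0
  le := fun i => by
    have h1 := ple_im (S := Z.sp) p A hA (h.le i)
    rw [← upz_im] at h1
    exact h1
  ge := fun i => by
    have h1 := ple_im (S := Z.sp) p A hA (h.ge i)
    rw [← upz_im] at h1
    exact h1

/-- THE DEEP ZOOM ON THE EVENT -/
def rwX {s : MSys S M E ι} (z : RW s M') {p : Pj T z.Z.sp} (hA : 0 < ul (T.pr A)) :
    RW (s.im (pjX z.Z p) A (prX hA)) M' where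
  Z := zuX z.Z p A
  hc := z.hc
  dm := fun i => imx_nul (B := (s.lf i).win z.Z.c) hA (z.dm i)
  D := z.D
  Λ := z.Λ
  R := rowsX z.R hA
  X := VV.im (S := z.Z.sp) p A z.X
  hX := isX_X hA z.hX
  κ := z.κ
  hκ1 := z.hκ1
  he := z.he
  hκ := z.hκ

/-- flags on events -/
theorem flgX {s : MSys S M E ι} {z : RW s M} {lam : Fin M → ℝ} (hf : Flg z lam) {p : Pj T z.Z.sp}
    (hA : 0 < ul (T.pr A)) : Flg (rwX z (p := p) hA) lam where
  tri := hf.tri
  ex := fun e he => typX (Z := z.Z) (p := p) (A := A) (B := fun k ω => ∀ j,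
    2 ^ ((lam j - e) * (S.F k).n) ≤ |MvPolynomial.eval (s.Q.v k ((z.Z.l k).p.π ω))
      (MvPolynomial.pderiv j (z.R.p k ω j))| ∧
    |MvPolynomial.eval (s.Q.v k ((z.Z.l k).p.π ω)) (MvPolynomial.pderiv j (z.R.p k ω j))| ≤
      2 ^ ((lam j + e) * (S.F k).n)) hA (hf.ex e he)

/-- literal K-labels on events -/
theorem klbX {s : MSys S M E ι} {R : Rsl S} {W : Rsl S} (hW : Z.l = Lab.ofZ W) (hK : KLb s R Z.c Z.l)
    (hA : 0 < ul (T.pr A)) : KLb (s.im (pjX Z p) A (prX hA)) R Z.c (zuX Z p A).l := by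
  constructor
  · intro i
    rcases i with _ | i
    · exact imx_nul (B := fun k => fc (R k)) hA (hK.1 none)
    · exact imx_nul (B := (s.lf i).win Z.c) hA (hK.1 (some i))
  · obtain ⟨l, c, u, h0, hu, h1⟩ := Z
    have hW' : l = Lab.ofZ W := hW
    subst hW'
    exact Pool.Agent.Helper49.KL.kz_im hK.2

end zu

end

end Pool.Agent.Helper63.ZMX
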