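import Pool.Agent.Helper48.ROK.Ev
import Pool.Agent.Helper48.DGR.Bnd
import Pool.Agent.Helper48.DGR.Cls
import Pool.Agent.Helper25.DX.Typ
import Pool.Agent.Helper84.MT.Row
import Pool.Agent.Helper87.NSL.Inv

/-! TYPICAL EXPONENTS of K-forms from lower bounds of the volumes on all events of all extensions; bounds of the
gradients. -/

set_option autoImplicit false

namespace Pool.Agent.Helper63.ZMX

open Finset Filter Topology Matrix Pool.Agent.Helper69.RK Pool.Agent.Helper31.EC Pool.Agent.Helper31.EC.Sp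
open Pool.Agent.Helper40.EL Pool.Agent.Helper89.LX Pool.Agent.Helper3.LF Pool.Agent.Helper84.MT
open Pool.Agent.Helper89.RAK (KC)
open Pool.Agent.Helper14.MC (gx vx vol_eq vx_UB)
open Pool.Agent.Helper87.NSL (KnS)
open Pool.Agent.Helper25.DX (Ub)
open Pool.Agent.Helper95.LF (PdM)

noncomputable section

variable {S : Sp} {M D : ℕ} {κ : Type}

/-- K-forms restricted to events which are known to the label and to the resolution -/
theorem re_adfK [Finite κ] {A : κ → Part S} {Q : S.VV M} {R : ∀ k, Setoid (S.F k).Ω}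
    {x : ∀ k, FD (S.F k) (Mon M D)} (hx : (gaq Q D).AdfK (KC R) A x) (B : ∀ k, ((lbS x).sp.F k).Ω → Prop)
    (hB : 0 < ul ((lbS x).sp.pr B))
    (hE : ∀ᶠ k in UF, ∀ (ω ω' : (x k).l.T.Ω), (x k).l.T.μ ω ≠ 0 → (x k).l.T.μ ω' ≠ 0 → (x k).l.V ω ω' →
      (x k).l.T.Z ω ω' → R k ((x k).l.p.π ω) ((x k).l.p.π ω') → (B k ω ↔ B k ω')) :
    (gaq (Q.im (lbS x).pj B) D).AdfK (LC.kz (S := Sp.im (lbS x).pj B) fun k => fc (R k))
      (fun i => (A i).im (lbS x).pj B) (reS x B) := by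
  constructor
  · rw [gaq_im]
    exact Gau.Adf.re hx.1 B hB
  · filter_upwards [hx.2, hE] with k a b
    exact Pool.Agent.Helper48.ROK.im_kz (x k).l (B k) (R k) a b

/-- **THE EXPONENT OF A K-FORM IS TYPICALLY AT MOST `M - v`** if the volumes of the K-forms on all events of all extensions
are at least `v` -/
theorem ub_low [Finite κ] {A : κ → Part S} {Q : S.VV M} {R : ∀ k, Setoid (S.F k).Ω} (hR : KnS R Q.v)
    {x : ∀ k, FD (S.F k) (Mon M D)} (hx : (gaq Q D).AdfK (KC R) A x) {v : ℝ}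
    (hlow : ∀ (T : Sp) (p : Pj T S) (E : ∀ k, (T.F k).Ω → Prop) (_ : 0 < ul (T.pr E))
      (y : ∀ k, FD ((Sp.im p E).F k) (Mon M D)), (gaq (Q.im p E) D).AdfK (LC.kz (S := Sp.im p E) fun k => fc (R k))
        (fun i => (A i).im p E) y → v ≤ vol (Q.im p E) D y) : Ub Q x (M - v) := by
  intro ε hε
  set B : ∀ k, ((lbS x).sp.F k).Ω → Prop := fun k (ω : (x k).l.T.Ω) =>
    ¬ gx Q k ((x k).l.p.π ω) ((x k).g ω) ≤ M - v + ε with hBdef
  have hU : UB ((lbS x).sp.pr B) := UB_pr (S := (lbS x).sp) B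
  have hBk : ∀ᶠ k in UF, ∀ (ω ω' : (x k).l.T.Ω), (x k).l.T.μ ω ≠ 0 → (x k).l.T.μ ω' ≠ 0 → (x k).l.V ω ω' →
      (x k).l.T.Z ω ω' → R k ((x k).l.p.π ω) ((x k).l.p.π ω') → (B k ω ↔ B k ω') := by
    filter_upwards [hR] with k hk ω ω' a b c d r
    have h1 : Q.v k ((x k).l.p.π ω) = Q.v k ((x k).l.p.π ω') := hk _ _ ((x k).l.p.supp ω a) ((x k).l.p.supp ω' b)
      (((x k).l.p.hZ ω ω' a b).1 d) r
    have h2 := ((x k).meas ω ω' a b c d).1
    show (¬ _) ↔ (¬ _)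
    unfold gx
    rw [h1, h2]
  have h0 : ul ((lbS x).sp.pr B) ≤ 0 := by
    by_contra hc
    have hpos : 0 < ul ((lbS x).sp.pr B) := not_le.1 hc
    have hadm := re_adfK hx B hpos hBk
    have k3 := hlow _ (lbS x).pj B hpos (reS x B) hadm
    rw [vol_eq] at k3
    have k4 : M - v + ε ≤ ul (vx (Q.im (lbS x).pj B) (reS x B)) := by
      refine const_le_ul (vx_UB hadm.1) ?_
      filter_upwards [pr_half' (S := (lbS x).sp) hpos] with k hk
      have hpb : (x k).l.T.pb (B k) ≠ 0 := by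
        have h5 : 0 < ul ((lbS x).sp.pr B) / 2 := by linarith
        exact (lt_of_lt_of_le h5 hk).ne'
      show M - v + ε ≤ ∑ ω, ((x k).l.T.rest (B k)).μ ω * gx Q k ((x k).l.p.π ω) ((x k).g ω)
      have e1 : ∑ ω, ((x k).l.T.rest (B k)).μ ω = 1 := ((x k).l.T.rest (B k)).ms
      have e2 : M - v + ε = ∑ ω, ((x k).l.T.rest (B k)).μ ω * (M - v + ε) := by
        rw [← Finset.sum_mul, e1, one_mul]
      rw [e2]
      refine Finset.sum_le_sum fun ω _ => ?_
      by_cases hω : ((x k).l.T.rest (B k)).μ ω = 0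
      · rw [hω, zero_mul, zero_mul]
      · have h6 := ((x k).l.T.rest_supp (B k) ω hω).2 hpb
        exact mul_le_mul_of_nonneg_left (not_le.1 h6).le (((x k).l.T.rest (B k)).nn ω)
    linarith
  have h1 : 0 ≤ ul ((lbS x).sp.pr B) := const_le_ul hU (Eventually.of_forall fun k => (x k).l.T.pb_nonneg _)
  have h2 := ul_tendsto hU
  rw [le_antisymm h0 h1] at h2
  exact h2

/-- BOUNDS OF THE GRADIENTS from the exponent of the volume -/
theorem grb_ub {A : κ → Part S} {Q : S.VV M} {x : ∀ k, FD (S.F k) (Mon M D)} (hx : (gaq Q D).Adf A x) {θ u : ℝ}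
    (hu : Ub Q x θ) (h1 : u ≤ 1) (h2 : θ + u < 1) : GrB Q x u := by
  refine GrB.of_gam hx.fm h1 ⟨fun _ => (M : ℝ), S.Sub_const (Nat.cast_nonneg M), ?_⟩
  have h3 := hu (1 - u - θ) (by linarith)
  refine Typ.mono (S := Lab.sp (fun k => (x k).l)) h3 ?_
  filter_upwards [hx 1 one_pos] with k hk ω hω h4
  have hA := (hk.2.1 ω hω).1.pdM
  have hn := (S.F k).pos
  set r := S.dl 1 k
  set q := Q.v k ((x k).l.p.π ω)
  set B := (x k).g ω
  have hpsd : ∀ v, 0 ≤ v ⬝ᵥ (B *ᵥ v) := (hk.2.1 ω hω).1.psd.2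
  have h5 : ∀ j, 1 + Jq r B q j j ≤ GQ r B q := fun j =>
    Pool.Agent.Helper48.DGR.Jq_le_GQ r hA.1 hpsd q j
  have hpos : 0 < GQ r B q := lt_of_lt_of_le one_pos (one_le_GQ r hA.1 hpsd q)
  have h6 : GQ r B q ≤ 2 ^ (2 * (1 - u) * (S.F k).n) := by
    have h7 : Real.logb 2 (GQ r B q) / (2 * (S.F k).n) ≤ θ + (1 - u - θ) := h4
    rw [div_le_iff₀ (by positivity)] at h7
    rw [← Real.logb_le_iff_le_rpow (by norm_num) hpos]
    linarith
  have e1 : (S.dl u k / S.dl 1 k) ^ 2 = 2 ^ (2 * (1 - u) * (S.F k).n) := by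
    unfold Sp.dl
    rw [← Real.rpow_sub (by norm_num), ← Real.rpow_natCast, ← Real.rpow_mul (by norm_num)]
    congr 1
    push_cast
    ring
  show gam r B q ≤ M * (S.dl u k / S.dl 1 k) ^ 2
  rw [Pool.Agent.Helper48.DGR.gam_eq, e1]
  calc ∑ j, Jq r B q j j ≤ ∑ _j : Fin M, (2 : ℝ) ^ (2 * (1 - u) * (S.F k).n) :=
        Finset.sum_le_sum fun j _ => by linarith [h5 j]
    _ = M * 2 ^ (2 * (1 - u) * (S.F k).n) := by
        rw [Finset.sum_const, Finset.card_univ, Fintype.card_fin, nsmul_eq_mul]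

end

end Pool.Agent.Helper63.ZMX
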