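import Pool.Agent.Helper63.ZMX.Eq
import Pool.Agent.Helper63.ZMX.Ub
import Pool.Agent.Helper63.ZMX.Imx
import Pool.Agent.Helper25.DX.Win
import Pool.Agent.Helper48.ROK.Nrm
import Pool.Agent.Helper84.SEL.Numx

/-! THE NUMBERS OF A ZOOM in optimal flag rows over a literal K-label, on all events of all extensions. -/

set_option autoImplicit false

namespace Pool.Agent.Helper63.ZMX

open Finset Filter Topology Matrix Pool.Agent.Helper69.RK Pool.Agent.Helper31.EC Pool.Agent.Helper31.EC.Sp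
open Pool.Agent.Helper40.EL Pool.Agent.Helper89.LX Pool.Agent.Helper3.LF Pool.Agent.Helper84.MT
open Pool.Agent.Helper7.GZ Pool.Agent.Helper7.RD Pool.Agent.Helper36.AM
open Pool.Agent.Helper29.MX
open Pool.Agent.Helper87.NSL (cndR KnS)
open Pool.Agent.Helper89.RAD (cnA dp DMA)
open Pool.Agent.Helper89.RAK (KC Lit)
open Pool.Agent.Helper18.PRM (vcrd scrd)
open Pool.Agent.Helper48.ROK (nrm nrm_lit nrm_fc kns_im adfK_res volC_res)
open Pool.Agent.Helper94.SEL (num tot lmd)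
open Pool.Agent.Helper84.SEL (num_le_tot num_nonneg)
open Pool.Agent.Helper52.MW (AllE_im AllE_self)
open Pool.Agent.Helper25.DX (Ub Ue deg_wine)

noncomputable section

/-! ### optimal forms of the prefixes at a window `b > 0` -/

section att

variable {T : Sp} {M m : ℕ} {E : ℕ → ℕ} {ι : Type} {t : MSys T M E ι} {R : Rsl T}

theorem cnA_scrd (σ : Fin m → Fin M) (A : Part T) (c : ℝ) : cnA (scrd σ t) A c = cnA t A c := by
  funext i
  rcases i with _ | i
  · rfl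
  · rfl

theorem kns_pfx (h : Pt t R) (hm : m ≤ M) : KnS R (pfx t.Q hm).v := by
  filter_upwards [h] with k hk ω ω' a b c d
  have h1 := hk ω ω' a b c d
  funext i
  exact congrFun h1 (Fin.castLE hm i)

/-- exponents of the K-forms of the prefixes, from bounds of the numbers on all events -/
theorem ub_pfx [Finite ι] (hR : Pt t R) {b θ : ℝ} (hm : m ≤ M)
    (hlow : AllE (fun _ t R => num t R hm b ≤ θ) T t R) {D : ℕ} {y : ∀ k, FD (T.F k) (Mon m D)}
    (hy : (gaq (pfx t.Q hm) D).AdfK (KZ R) (cndR t R b) y) : Ub (pfx t.Q hm) y θ := by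
  have hy' : (gaq (pfx t.Q hm) D).AdfK (KC R) (cnA t (pR R) b) y := by
    rw [← cndR_cnA]
    exact hy
  have h1 := ub_low (kns_pfx hR hm) hy' (v := m - θ) (fun T' p F hF z hz => by
    have e1 : (fun i => (cnA t (pR R) b i).im p F) = cnA (t.im p F hF) (pR (S := Sp.im p F) R) b := by
      funext i
      rcases i with _ | i
      · rfl
      · rfl
    rw [e1] at hz
    have h2 : num (t.im p F hF) R hm b ≤ θ := hlow T' p F hF
    have h3 : volP (t.im p F hF) R b hm ≤ vol (pfx (t.im p F hF).Q hm) D z :=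
      le_trans (le_of_eq (volP_cnA (S := Sp.im p F) (t.im p F hF) R b hm))
        ((volCO_le (S := Sp.im p F) D).trans (volC_le_of (S := Sp.im p F) hz))
    unfold num at h2
    have e2 : pfx (t.im p F hF).Q hm = (pfx t.Q hm).im p F := rfl
    rw [e2] at h3
    linarith)
  have e3 : (m : ℝ) - (m - θ) = θ := by ring
  rw [e3] at h1
  exact h1

/-- THE VOLUME OF A PREFIX IS ATTAINED by a form with a gradient exponent less than one -/
theorem attained {M : ℕ} {T : Sp} {r : ℕ} {t : MSys T (M + 1) E (Fin r)} {R : Rsl T} (hst : ∀ m, m < M + 1 → STu m)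
    (hR : Pt t R) {b θ : ℝ} (hb : 0 < b) (hb1 : b < 1) (hθ0 : 0 ≤ θ) (hθ : θ < 1) (hm : m ≤ M + 1)
    (hlow : AllE (fun _ t R => num t R hm b ≤ θ) T t R) :
    ∃ D₁ : ℕ, 1 ≤ D₁ ∧ ∃ y : ∀ k, FD (T.F k) (Mon m D₁), (gaq (pfx t.Q hm) D₁).AdfK (KZ R) (cndR t R b) y ∧
      vol (pfx t.Q hm) D₁ y ≤ volP t R b hm ∧ ∃ u : ℝ, 0 < u ∧ u ≤ 1 ∧ GrB (pfx t.Q hm) y u := by
  have hG : ∀ (D : ℕ) (y : ∀ k, FD (T.F k) (Mon m D)), (gaq (pfx t.Q hm) D).AdfK (KZ R) (cndR t R b) y →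
      ∃ u : ℝ, 0 < u ∧ u ≤ 1 ∧ GrB (pfx t.Q hm) y u := fun D y hy =>
    ⟨(1 - θ) / 2, by linarith, by linarith, grb_ub hy.1 (ub_pfx hR hm hlow hy) (by linarith) (by linarith)⟩
  suffices hs : ∃ D₁ : ℕ, 1 ≤ D₁ ∧ ∀ D, volC (KC R) (cnA t (pR R) b) (pfx t.Q hm) D₁ ≤
      volC (KC R) (cnA t (pR R) b) (pfx t.Q hm) D by
    obtain ⟨D₁, hD₁, h1⟩ := hs
    obtain ⟨y, hy⟩ := (gaq (pfx t.Q hm) D₁).exists_optfK (KC R) (cnA t (pR R) b)
    have hy' : (gaq (pfx t.Q hm) D₁).AdfK (KZ R) (cndR t R b) y := by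
      rw [cndR_cnA]
      exact hy.1
    refine ⟨D₁, hD₁, y, hy', ?_, hG D₁ y hy'⟩
    rw [← volC_eq hy, volP_cnA]
    exact le_ciInf fun D => h1 D
  rcases m with _ | N
  · refine ⟨1, le_rfl, fun D => ?_⟩
    refine (volC_le_M (Q := pfx t.Q hm)).trans ?_
    have h1 : 0 ≤ volC (KC R) (cnA t (pR R) b) (pfx t.Q hm) D := volC_nonneg
    norm_num
    exact h1
  · obtain ⟨g₁, hg₁⟩ := exists_nat_gt (θ / b)
    have hdim : ∃ g₂ : ℕ, ∀ i, (t.lf i).e ≤ g₂ := ⟨∑ i, (t.lf i).e, fun i =>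
      Finset.single_le_sum (f := fun i => (t.lf i).e) (fun _ _ => Nat.zero_le _) (Finset.mem_univ i)⟩
    obtain ⟨g₂, hg₂⟩ := hdim
    obtain ⟨D₁, hD₁, h1⟩ := deg_wine (N := N) (fun m' hm' => hst m' (lt_of_lt_of_le hm' hm)) (g := g₁ + g₂ + 1)
      (Nat.le_add_left 1 _)
    refine ⟨D₁, hD₁, fun D => ?_⟩
    set R' := nrm R t.Q with hR'
    have hfc : ∀ᶠ k in UF, fc (R' k) = fc (R k) := nrm_fc hR
    have hlit : Lit R' (scrd (Fin.castLE hm) t).Q := by
      intro k ω ω' r'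
      have h2 : t.Q.v k ω = t.Q.v k ω' := (nrm_lit R t.Q) k r'
      show (fun a => t.Q.v k ω (Fin.castLE hm a)) = fun a => t.Q.v k ω' (Fin.castLE hm a)
      rw [h2]
    have hbg : θ < b * (1 + (g₁ + g₂ + 1 : ℕ)) := by
      rw [div_lt_iff₀ hb] at hg₁
      push_cast
      nlinarith [(Nat.cast_nonneg g₁ : (0 : ℝ) ≤ g₁), (Nat.cast_nonneg g₂ : (0 : ℝ) ≤ g₂)]
    have h2 := h1 D₁ le_rfl (Fin r) E T (scrd (Fin.castLE hm) t) R' hlit (fun i => (hg₂ i).trans (by omega)) b θ hb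
      hb1 hθ hbg D (fun x hx => by
        rw [cnA_scrd] at hx
        have h3 : (gaq (pfx t.Q hm) D).AdfK (KC R) (cnA t (dp R) b) x := (adfK_res hfc).1 hx.1
        have h4 : (gaq (pfx t.Q hm) D).AdfK (KZ R) (cndR t R b) x := by
          rw [cndR_cnA]
          exact h3
        exact (ub_pfx hR hm hlow h4).ue h4.1)
    rw [cnA_scrd] at h2
    have e1 : ∀ D', volC (KC R') (cnA t (dp R') b) (scrd (Fin.castLE hm) t).Q D' =
        volC (KC R) (cnA t (dp R) b) (scrd (Fin.castLE hm) t).Q D' := fun D' => volC_res hfc _ D'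
    rw [e1, e1] at h2
    exact h2

end att

/-! ### one law -/

section one

variable {S : Sp} {M m : ℕ} {E E' : ℕ → ℕ} {ι : Type} [Finite ι] {s : MSys S M E ι} {R : Rsl S} {Z : ZU S}
  {z : PZ Z s.Q M} {lam : Fin M → ℝ} {t : MSys Z.sp M E' ι} {b : ℝ}

/-- the numbers of the zoom are at most the growth of the numbers of the system -/
theorem pz_num_le (hT : z.Tri) (hK : KLb s R Z.c Z.l) (hX : t.Q = z.X) (hw : WZ Z s t b)
    (hex : ∀ e : ℝ, 0 < e → Typ (S := Z.l.sp) (fun k (ω : (Z.l k).T.Ω) => ∀ j, 2 ^ ((lam j - e) * (S.F k).n) ≤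
      |MvPolynomial.eval (s.Q.v k ((Z.l k).p.π ω)) (MvPolynomial.pderiv j (z.R.p k ω j))|)) (hm : m ≤ M)
    (hs : ∑ i : Fin m, lam (Fin.castLE hm i) = num s R hm Z.c) :
    Z.u * num t (roz Z R) hm b ≤ num s R hm (Z.c + Z.u * b) - num s R hm Z.c := by
  have hKi := KLb_iff.mp hK
  have hdm : DMA s (pR R) (Z.c + Z.u * b) Z.l := hKi.1.mono hw.c_le
  have h1 := z.volP_le hT (A := cnA s (pR R) (Z.c + Z.u * b)) (B := cnA t (pR (roz Z R)) b) hdm
    (fun i => ⟨i, hw.cnA_up (A := pR R) (PLe.refl _) i⟩) hKi.2 lam hex hm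
  rw [hs, ← hX] at h1
  have e1 := volP_cnA s R (Z.c + Z.u * b) hm
  have e2 := volP_cnA t (roz Z R) b hm
  have e3 : volCO (LC.kz (upz Z (pR R))) (cnA t (pR (roz Z R)) b) (pfx t.Q hm) =
      volCO (LC.kz (pR (roz Z R))) (cnA t (pR (roz Z R)) b) (pfx t.Q hm) := rfl
  rw [e3, ← e2] at h1
  have e4 : volCO (LC.kz (pR R)) (cnA s (pR R) (Z.c + Z.u * b)) (pfx s.Q hm) ≤ m - num s R hm Z.c -
      Z.u * (m - volP t (roz Z R) b hm) := h1
  rw [← e1] at e4
  show Z.u * (m - volP t (roz Z R) b hm) ≤ (m - volP s R (Z.c + Z.u * b) hm) - num s R hm Z.c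
  linarith

end one

/-! ### the zoom -/

section zoom

variable {S : Sp} {M r : ℕ} {E : ℕ → ℕ} {s : MSys S (M + 1) E (Fin r)} {R : Rsl S} {z : RW s (M + 1)} {W : Rsl S}

theorem lmd_sum (s : MSys S (M + 1) E (Fin r)) (R : Rsl S) (c : ℝ) {m : ℕ} (hm : m ≤ M + 1) :
    ∑ i : Fin m, lmd s R c (Fin.castLE hm i) = num s R hm c := by
  refine optLam_sum (s := s) (R := R) (c := c) (lam := lmd s R c) (fun j => ?_) m hm
  show ((((j : ℕ) + 1 : ℕ) : ℝ) - _) - (((j : ℕ) : ℝ) - _) = _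
  push_cast
  ring

/-- **THE NUMBERS OF A ZOOM** in optimal flag rows over a literal K-label, on all events of all extensions -/
theorem num_zoom (hst : ∀ m, m < M + 1 → STu m) (hR : Pt s R) (hW : z.Z.l = Lab.ofZ W) (hK : KLb s R z.Z.c z.Z.l)
    (hf : Flg z (lmd s R z.Z.c)) (hlit : Pt z.sys (roz z.Z R)) {b : ℝ} (hb : 0 ≤ b) (hb1 : b < 1)
    (hrig : AllE (fun _ s' R' => ∀ (m : ℕ) (hm : m ≤ M + 1), num s' R' hm z.Z.c = num s R hm z.Z.c ∧
      num s' R' hm (z.Z.c + z.Z.u * b) = num s R hm (z.Z.c + z.Z.u * b)) S s R)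
    (htot : tot s R (z.Z.c + z.Z.u * b) < tot s R z.Z.c + z.Z.u) :
    AllE (fun _ t R' => ∀ (m : ℕ) (hm : m ≤ M + 1), num t R' hm b =
      (num s R hm (z.Z.c + z.Z.u * b) - num s R hm z.Z.c) / z.Z.u) z.Z.sp z.sys (roz z.Z R) := by
  have hu := z.Z.hu
  have hlast : ∀ c, num s R le_rfl c = tot s R c := fun c => (Pool.Agent.Helper84.SEL.numx M).last S E r s R c
  have hle : ∀ (T : Sp) (p : Pj T z.Z.sp) (A : ∀ k, (T.F k).Ω → Prop) (hA : 0 < ul (T.pr A)) (m : ℕ)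
      (hm : m ≤ M + 1), z.Z.u * num (z.sys.im p A hA) (roz z.Z R) hm b ≤
        num s R hm (z.Z.c + z.Z.u * b) - num s R hm z.Z.c := by
    intro T p A hA m hm
    have h1 := hrig _ (pjX z.Z p) A (prX hA) m hm
    have h2 := pz_num_le (s := s.im (pjX z.Z p) A (prX hA)) (R := R) (Z := zuX z.Z p A) (z := pzX z.pz hA)
      (t := z.sys.im p A hA) (lam := lmd s R z.Z.c) (m := m) hf.tri (klbX hW hK hA) rfl (wzX (z.wz hb) hA)
      (fun e he => Typ.mono (S := (zuX z.Z p A).l.sp) ((flgX hf hA).ex e he) (Eventually.of_forall fun k ω _ h j =>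
        (h j).1)) hm ((lmd_sum s R z.Z.c hm).trans h1.1.symm)
    have e1 : num (s.im (pjX z.Z p) A (prX hA)) R hm ((zuX z.Z p A).c + (zuX z.Z p A).u * b) =
        num s R hm (z.Z.c + z.Z.u * b) := h1.2
    have e2 : num (s.im (pjX z.Z p) A (prX hA)) R hm (zuX z.Z p A).c = num s R hm z.Z.c := h1.1
    have h3 : z.Z.u * num (z.sys.im p A hA) (roz z.Z R) hm b ≤
      num (s.im (pjX z.Z p) A (prX hA)) R hm ((zuX z.Z p A).c + (zuX z.Z p A).u * b) -
        num (s.im (pjX z.Z p) A (prX hA)) R hm (zuX z.Z p A).c := h2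
    rw [e1, e2] at h3
    exact h3
  set θ : ℝ := (tot s R (z.Z.c + z.Z.u * b) - tot s R z.Z.c) / z.Z.u with hθdef
  have hθ0 : 0 ≤ θ := by
    refine div_nonneg ?_ hu.le
    have := Pool.Agent.Helper84.SEL.tot_mono s R (c := z.Z.c) (c' := z.Z.c + z.Z.u * b)
      (by linarith [mul_nonneg hu.le hb])
    linarith
  have hθ1 : θ < 1 := by
    rw [hθdef, div_lt_one hu]
    linarith
  have hall : ∀ (m : ℕ) (hm : m ≤ M + 1), AllE (fun _ t R' => num t R' hm b ≤ θ) z.Z.sp z.sys (roz z.Z R) := by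
    intro m hm T p A hA
    have h1 := hle T p A hA (M + 1) le_rfl
    have h2 : num (z.sys.im p A hA) (roz z.Z R) hm b ≤ tot (z.sys.im p A hA) (roz z.Z R) b :=
      num_le_tot (S := Sp.im p A) (z.sys.im p A hA) (roz z.Z R) hm b
    have h3 : num (z.sys.im p A hA) (roz z.Z R) le_rfl b = tot (z.sys.im p A hA) (roz z.Z R) b :=
      (Pool.Agent.Helper84.SEL.numx M).last (Sp.im p A) _ r (z.sys.im p A hA) (roz z.Z R) b
    rw [h3, hlast, hlast] at h1
    refine h2.trans ?_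
    rw [hθdef, le_div_iff₀ hu]
    linarith
  intro T p A hA m hm
  rcases eq_or_lt_of_le hb with rfl | hbpos
  · have h1 := hle T p A hA m hm
    have h2 : 0 ≤ num (z.sys.im p A hA) (roz z.Z R) hm 0 :=
      num_nonneg (S := Sp.im p A) (z.sys.im p A hA) (roz z.Z R) hm 0
    rw [mul_zero, add_zero, sub_self] at h1
    rw [mul_zero, add_zero, sub_self, zero_div]
    nlinarith
  · have hlit' : Pt (z.sys.im p A hA) (roz z.Z R) := kns_im hlit p A
    obtain ⟨D₁, hD₁, y, hy, hyO, u, hu0, hu1, hG⟩ := attained (t := z.sys.im p A hA) (R := roz z.Z R) hst hlit'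
      hbpos hb1 hθ0 hθ1 hm (AllE_im (hall m hm) p A hA)
    have h1 := hrig _ (pjX z.Z p) A (prX hA) m hm
    have hs' : num (s.im (pjX z.Z p) A (prX hA)) R hm (zuX z.Z p A).c = num s R hm z.Z.c := h1.1
    have h2 := volP_eq (s := s.im (pjX z.Z p) A (prX hA)) (R := R) (Z := zuX z.Z p A) (z := pzX z.pz hA)
      (t := z.sys.im p A hA) (lam := lmd s R z.Z.c) (m := m) (kns_im hR (pjX z.Z p) A) hf.tri hlit'
      (klbX hW hK hA) rfl (wzX (z.wz hb) hA) (flgX hf hA).ex hm ((lmd_sum s R z.Z.c hm).trans hs'.symm) hD₁ hy hyO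
      hu0 hu1 hG
    have e1 : num (s.im (pjX z.Z p) A (prX hA)) R hm ((zuX z.Z p A).c + (zuX z.Z p A).u * b) =
        num s R hm (z.Z.c + z.Z.u * b) := h1.2
    have h3 : volP (s.im (pjX z.Z p) A (prX hA)) R ((zuX z.Z p A).c + (zuX z.Z p A).u * b) hm =
      volP (s.im (pjX z.Z p) A (prX hA)) R (zuX z.Z p A).c hm - z.Z.u * num (z.sys.im p A hA) (roz z.Z R) hm b := h2
    show num (z.sys.im p A hA) (roz z.Z R) hm b = _
    rw [eq_div_iff hu.ne']
    have e2 : num (s.im (pjX z.Z p) A (prX hA)) R hm ((zuX z.Z p A).c + (zuX z.Z p A).u * b) =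
      m - volP (s.im (pjX z.Z p) A (prX hA)) R ((zuX z.Z p A).c + (zuX z.Z p A).u * b) hm := rfl
    have e3 : num (s.im (pjX z.Z p) A (prX hA)) R hm (zuX z.Z p A).c =
      m - volP (s.im (pjX z.Z p) A (prX hA)) R (zuX z.Z p A).c hm := rfl
    rw [← e1, ← hs', e2, e3, h3]
    ring

end zoom

end

end Pool.Agent.Helper63.ZMX
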